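import Pool.Agent.MP_5c28a4_al.H89.Spec

set_option autoImplicit false

namespace Pool.Agent.MP_5c28a4_al.H91

open Pool.Agent.Burnside6 Pool.Agent.MP_5c28a4_al.H89 Filter Finset

/-- weighted exponent sum -/
def dgH (a : ℕ → ℤ) : F →* Multiplicative ℤ := FreeGroup.lift fun i => Multiplicative.ofAdd (a i)

def dg (a : ℕ → ℤ) (g : F) : ℤ := Multiplicative.toAdd (dgH a g)

@[simp] theorem dg_of (a : ℕ → ℤ) (i : ℕ) : dg a (FreeGroup.of i) = a i := by simp [dg, dgH]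
@[simp] theorem dg_one (a : ℕ → ℤ) : dg a 1 = 0 := by simp [dg]
@[simp] theorem dg_mul (a : ℕ → ℤ) (g h : F) : dg a (g * h) = dg a g + dg a h := by simp [dg]
@[simp] theorem dg_inv (a : ℕ → ℤ) (g : F) : dg a g⁻¹ = - dg a g := by simp [dg]
@[simp] theorem dg_zpow (a : ℕ → ℤ) (g : F) (n : ℤ) : dg a (g ^ n) = n * dg a g := by simp [dg]

def e (p : ℕ) : ℕ → ℤ := fun i => if i = p then 1 else 0

def pull (σ : F →* F) (a : ℕ → ℤ) : ℕ → ℤ := fun i => dg a (σ (FreeGroup.of i))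

theorem dg_pull (σ : F →* F) (a : ℕ → ℤ) (g : F) : dg (pull σ a) g = dg a (σ g) := by
  induction g using FreeGroup.induction_on with
  | C1 => simp
  | of i => simp [pull]
  | inv_of i h => simp [pull]
  | mul x y hx hy => simp [hx, hy]

theorem dg_lin (u v : ℤ) (a b : ℕ → ℤ) (g : F) :
    dg (fun i => u * a i + v * b i) g = u * dg a g + v * dg b g := by
  induction g using FreeGroup.induction_on with
  | C1 => simp
  | of i => simp
  | inv_of i h => simp; ring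
  | mul x y hx hy => simp only [dg_mul, hx, hy]; ring

theorem ev_prod (g : F) : ∀ᶠ K in atTop, ∀ (M : Type) [CommGroup M] (φ : F →* M),
    φ g = ∏ p ∈ range K, φ (FreeGroup.of p) ^ dg (e p) g := by
  have key (i : ℕ) : ∀ᶠ K in atTop, ∀ (M : Type) [CommGroup M] (φ : F →* M),
      φ (FreeGroup.of i) = ∏ p ∈ range K, φ (FreeGroup.of p) ^ dg (e p) (FreeGroup.of i) := by
    filter_upwards [eventually_gt_atTop i] with K hK M _ φ
    rw [prod_eq_single i (fun p _ hp => by simp [e, hp.symm]) (fun h => absurd (mem_range.2 hK) h)]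
    simp [e]
  induction g using FreeGroup.induction_on with
  | C1 => simp
  | of i => exact key i
  | inv_of i h =>
    filter_upwards [key i] with K hK M _ φ
    rw [map_inv, hK M φ, ← prod_inv_distrib]
    simp
  | mul x y hx hy =>
    filter_upwards [hx, hy] with K h1 h2 M _ φ
    rw [map_mul, h1 M φ, h2 M φ, ← prod_mul_distrib]
    simp [zpow_add]

theorem ev_sum (g : F) : ∀ᶠ K in atTop, ∀ a, dg a g = ∑ p ∈ range K, a p * dg (e p) g := by
  filter_upwards [ev_prod g] with K hK a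
  have := congrArg Multiplicative.toAdd (hK _ (dgH a))
  rw [toAdd_prod] at this
  refine this.trans (sum_congr rfl fun p _ => ?_)
  simp [dgH, mul_comm]

theorem mem_commutator {g : F} (h : ∀ a, dg a g = 0) : g ∈ commutator F := by
  obtain ⟨K, hK⟩ := (ev_prod g).exists
  rw [← Abelianization.ker_of, MonoidHom.mem_ker, hK _ Abelianization.of]
  simp [h]

theorem binet (a a' g h : ℕ → ℤ) (K : ℕ) :
    (∑ p ∈ range K, a p * g p) * (∑ p ∈ range K, a' p * h p) -
      (∑ p ∈ range K, a p * h p) * (∑ p ∈ range K, a' p * g p) =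
    ∑ q ∈ range K, ∑ p ∈ range q, (a p * a' q - a q * a' p) * (g p * h q - h p * g q) := by
  induction K with
  | zero => simp
  | succ K ih =>
    have : ∑ p ∈ range K, (a p * a' K - a K * a' p) * (g p * h K - h p * g K) =
        a' K * h K * (∑ p ∈ range K, a p * g p) - a' K * g K * (∑ p ∈ range K, a p * h p) -
        a K * h K * (∑ p ∈ range K, a' p * g p) + a K * g K * (∑ p ∈ range K, a' p * h p) := by
      simp only [mul_sum, ← sum_sub_distrib, ← sum_add_distrib]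
      exact sum_congr rfl fun p _ => by ring
    simp only [sum_range_succ _ K]
    rw [← ih, this]
    ring

variable {C : Type} [AddCommGroup C] (L : ℕ → Law) (κ : ℕ → C)

abbrev Fm (C : Type) : Type := (ℕ → ℤ) → (ℕ → ℤ) → C

def alpha : F →* Multiplicative ((ℕ → ℤ) → ℤ) where
  toFun g := Multiplicative.ofAdd fun a => dg a g
  map_one' := by simp; rfl
  map_mul' g h := by simp; rfl

def kap (j : ℕ) (b b' : Multiplicative ((ℕ → ℤ) → ℤ)) : Multiplicative (Fm C) :=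
  Multiplicative.ofAdd fun a a' =>
    (b.toAdd a * b'.toAdd a' - b'.toAdd a * b.toAdd a') • κ j

theorem kap_zpow (j : ℕ) (b : Multiplicative ((ℕ → ℤ) → ℤ)) (i i' : ℤ) :
    kap κ j (b ^ i) (b ^ i') = 1 := by
  unfold kap
  rw [ofAdd_eq_one]
  funext a a'
  simp only [toAdd_zpow, Pi.smul_apply, smul_eq_mul, Pi.zero_apply]
  rw [show i * b.toAdd a * (i' * b.toAdd a') - i' * b.toAdd a * (i * b.toAdd a') = 0 by ring,
    zero_smul]

def Lc : Subgroup (F × Multiplicative (Fm C)) := Subgroup.closure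
  {w | ∃ j g h, w = (rW (L j) g h, (kap κ j (alpha g) (alpha h))⁻¹)}

def Ch (f : F) (c : Fm C) : Prop := (f, (Multiplicative.ofAdd c)⁻¹) ∈ Lc L κ

def gen (j : ℕ) (g h : F) : Fm C := fun a a' => (dg a g * dg a' h - dg a h * dg a' g) • κ j

variable {L κ}

theorem Ch.one : Ch L κ 1 0 := by
  unfold Ch
  rw [ofAdd_zero, inv_one]
  exact (Lc L κ).one_mem

theorem Ch.mul {f f' : F} {c c' : Fm C} (h : Ch L κ f c) (h' : Ch L κ f' c') :
    Ch L κ (f * f') (c + c') := by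
  have := (Lc L κ).mul_mem h h'
  rwa [Prod.mk_mul_mk, ← mul_inv, ← ofAdd_add] at this

theorem Ch.inv {f : F} {c : Fm C} (h : Ch L κ f c) : Ch L κ f⁻¹ (-c) := (Lc L κ).inv_mem h

theorem Ch.gen (j : ℕ) (g h : F) : Ch L κ (rW (L j) g h) (gen κ j g h) :=
  Subgroup.subset_closure ⟨j, g, h, rfl⟩

theorem Ch.ind {P : F → Fm C → Prop} (h1 : P 1 0)
    (h2 : ∀ f f' c c', P f c → P f' c' → P (f * f') (c + c')) (h3 : ∀ f c, P f c → P f⁻¹ (-c))
    (h4 : ∀ j g h, P (rW (L j) g h) (H91.gen κ j g h)) {f : F} {c : Fm C} (h : Ch L κ f c) :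
    P f c := by
  have key : ∀ w ∈ Lc L κ, P w.1 (- w.2.toAdd) := by
    intro w hw
    induction hw using Subgroup.closure_induction with
    | mem w hw =>
      obtain ⟨j, g, h, rfl⟩ := hw
      rw [toAdd_inv, neg_neg]
      exact h4 j g h
    | one => simpa using h1
    | mul x y _ _ hx hy =>
      have := h2 _ _ _ _ hx hy
      rwa [← neg_add] at this
    | inv x _ hx => exact h3 _ _ hx
  simpa using key _ h

theorem Ch.mem {f : F} {c : Fm C} (h : Ch L κ f c) : f ∈ Verb L Set.univ :=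
  h.ind (P := fun f _ => f ∈ Verb L Set.univ) (one_mem _) (fun _ _ _ _ => mul_mem)
    (fun _ _ => inv_mem) fun j g h => Subgroup.subset_closure ⟨j, trivial, g, h, rfl⟩

theorem exists_ch {f : F} (h : f ∈ Verb L Set.univ) : ∃ c, Ch L κ f c := by
  induction h using Subgroup.closure_induction with
  | mem w hw => obtain ⟨j, -, g, h, rfl⟩ := hw; exact ⟨_, Ch.gen j g h⟩
  | one => exact ⟨0, Ch.one⟩
  | mul x y _ _ hx hy => obtain ⟨c, hc⟩ := hx; obtain ⟨c', hc'⟩ := hy; exact ⟨_, hc.mul hc'⟩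
  | inv x _ hx => obtain ⟨c, hc⟩ := hx; exact ⟨_, hc.inv⟩

theorem Ch.nat {f : F} {c : Fm C} (h : Ch L κ f c) (σ : F →* F) :
    Ch L κ (σ f) fun a a' => c (pull σ a) (pull σ a') := by
  refine h.ind (P := fun f c => Ch L κ (σ f) fun a a' => c (pull σ a) (pull σ a')) ?_ ?_ ?_ ?_
  · rw [map_one]; exact Ch.one
  · intro f f' c c' h h'; rw [map_mul]; exact h.mul h'
  · intro f c h; rw [map_inv]; exact h.inv
  · intro j g h
    rw [map_rW]
    simp only [H91.gen, dg_pull]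
    exact Ch.gen j _ _

theorem Ch.alt {f : F} {c : Fm C} (h : Ch L κ f c) (u v u' v' : ℤ) (a b : ℕ → ℤ) :
    c (fun i => u * a i + v * b i) (fun i => u' * a i + v' * b i) = (u * v' - v * u') • c a b := by
  refine h.ind (P := fun _ c => c (fun i => u * a i + v * b i) (fun i => u' * a i + v' * b i) =
    (u * v' - v * u') • c a b) (by simp) ?_ ?_ ?_
  · intro _ _ c c' h h'; simp [h, h']
  · intro _ c h; simp [h]
  · intro j g h
    simp only [H91.gen, dg_lin, smul_smul]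
    congr 1
    ring

/-- elementary alternating forms -/
def om (p q : ℕ) (s : C) : Fm C := fun a a' => (a p * a' q - a q * a' p) • s

theorem Ch.str {f : F} {c : Fm C} (h : Ch L κ f c) :
    ∀ᶠ K in atTop, c = ∑ q ∈ range K, ∑ p ∈ range q, om p q (c (e p) (e q)) := by
  refine h.ind (P := fun _ c => ∀ᶠ K in atTop,
    c = ∑ q ∈ range K, ∑ p ∈ range q, om p q (c (e p) (e q))) ?_ ?_ ?_ ?_
  · refine Eventually.of_forall fun K => ?_
    funext a a'
    simp [om, Finset.sum_apply]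
  · intro _ _ c c' h h'
    filter_upwards [h, h'] with K h1 h2
    funext a a'
    have h3 := congrFun (congrFun h1 a) a'
    have h4 := congrFun (congrFun h2 a) a'
    simp only [Finset.sum_apply, om, Pi.add_apply, smul_add, sum_add_distrib] at h3 h4 ⊢
    rw [← h3, ← h4]
  · intro _ c h
    filter_upwards [h] with K h1
    funext a a'
    have h3 := congrFun (congrFun h1 a) a'
    simp only [Finset.sum_apply, om, Pi.neg_apply, smul_neg, sum_neg_distrib] at h3 ⊢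
    rw [← h3]
  · intro j g h
    filter_upwards [ev_sum g, ev_sum h] with K h1 h2
    funext a a'
    simp only [Finset.sum_apply, om, H91.gen, smul_smul, ← sum_smul]
    rw [h1 a, h1 a', h2 a, h2 a', binet]

variable (L κ)

def VS (S : AddSubgroup C) : Subgroup F where
  carrier := {f | ∃ c, Ch L κ f c ∧ ∀ a a', c a a' ∈ S}
  one_mem' := ⟨0, Ch.one, fun _ _ => S.zero_mem⟩
  mul_mem' := fun ⟨_, h, k⟩ ⟨_, h', k'⟩ => ⟨_, h.mul h', fun a a' => S.add_mem (k a a') (k' a a')⟩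
  inv_mem' := fun ⟨_, h, k⟩ => ⟨_, h.inv, fun a a' => S.neg_mem (k a a')⟩

def TV (V : Subgroup F) : AddSubgroup (Fm C) where
  carrier := {c | ∃ f ∈ V, Ch L κ f c}
  zero_mem' := ⟨1, V.one_mem, Ch.one⟩
  add_mem' := fun ⟨_, h, k⟩ ⟨_, h', k'⟩ => ⟨_, V.mul_mem h h', k.mul k'⟩
  neg_mem' := fun ⟨_, h, k⟩ => ⟨_, V.inv_mem h, k.inv⟩

def SV (V : Subgroup F) : AddSubgroup C where
  carrier := {s | ∃ c ∈ TV L κ V, c (e 0) (e 1) = s}
  zero_mem' := ⟨0, zero_mem _, rfl⟩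
  add_mem' := fun ⟨_, h, k⟩ ⟨_, h', k'⟩ => ⟨_, add_mem h h', by rw [← k, ← k']; rfl⟩
  neg_mem' := fun ⟨_, h, k⟩ => ⟨_, neg_mem h, by rw [← k]; rfl⟩

variable {L κ}

theorem VS_FI (S : AddSubgroup C) : FI (VS L κ S) :=
  fun σ _ ⟨_, h, k⟩ => ⟨_, h.nat σ, fun _ _ => k _ _⟩

theorem VS_mono {S S' : AddSubgroup C} (h : S ≤ S') : VS L κ S ≤ VS L κ S' :=
  fun _ ⟨c, h1, k⟩ => ⟨c, h1, fun a a' => h (k a a')⟩

theorem VS_le (S : AddSubgroup C) : VS L κ S ≤ Verb L Set.univ := fun _ ⟨_, h, _⟩ => h.mem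

theorem SV_mono {V V' : Subgroup F} (h : V ≤ V') : SV L κ V ≤ SV L κ V' :=
  fun _ ⟨c, ⟨f, h1, h2⟩, k⟩ => ⟨c, ⟨f, h h1, h2⟩, k⟩

theorem SV_VS (hf : ∀ f c c', Ch L κ f c → Ch L κ f c' → c = c') (hκ : Function.Surjective κ)
    (S : AddSubgroup C) : SV L κ (VS L κ S) = S := by
  ext s
  constructor
  · rintro ⟨c, ⟨f, ⟨c', h1, h2⟩, h3⟩, rfl⟩
    rw [hf f c c' h3 h1]
    exact h2 _ _
  · intro hs
    obtain ⟨j, rfl⟩ := hκ s
    refine ⟨_, ⟨_, ⟨_, Ch.gen j x0 x1, fun a a' => S.zsmul_mem hs _⟩, Ch.gen j x0 x1⟩, ?_⟩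
    simp [gen, x0, x1, e]

theorem om_mem {V : Subgroup F} (hV : FI V) (p q : ℕ) {s : C} (hs : s ∈ SV L κ V) :
    om p q s ∈ TV L κ V := by
  obtain ⟨c, ⟨f, h1, h2⟩, rfl⟩ := hs
  let σ : F →* F := FreeGroup.lift fun i =>
    if i = 0 then FreeGroup.of p else if i = 1 then FreeGroup.of q else 1
  have h3 (a : ℕ → ℤ) : pull σ a = fun i => a p * e 0 i + a q * e 1 i := by
    funext i
    simp only [pull, σ, FreeGroup.lift_apply_of, e]
    split_ifs <;> simp_all
  refine ⟨σ f, hV σ f h1, ?_⟩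
  have := h2.nat σ
  simp only [h3, h2.alt] at this
  exact this

theorem VS_SV {V : Subgroup F} (hV : FI V) (hN : VS L κ ⊥ ≤ V) (hR : V ≤ Verb L Set.univ) :
    VS L κ (SV L κ V) = V := by
  ext f
  constructor
  · rintro ⟨c, h1, h2⟩
    obtain ⟨K, hK⟩ := h1.str.exists
    have h3 : c ∈ TV L κ V := by
      rw [hK]
      exact AddSubgroup.sum_mem _ fun q _ => AddSubgroup.sum_mem _ fun p _ => om_mem hV p q (h2 _ _)
    obtain ⟨f', h4, h5⟩ := h3
    have h6 := hN (x := f * f'⁻¹) ⟨_, h1.mul h5.inv, fun a a' => by simp⟩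
    simpa using V.mul_mem h6 h4
  · intro hf
    obtain ⟨c, hc⟩ := exists_ch (κ := κ) (hR hf)
    refine ⟨c, hc, fun a a' => ?_⟩
    let σ : F →* F := FreeGroup.lift fun i => x0 ^ a i * x1 ^ a' i
    have h0 : pull σ (e 0) = a := by funext i; simp [pull, σ, x0, x1, e]
    have h1 : pull σ (e 1) = a' := by funext i; simp [pull, σ, x0, x1, e]
    exact ⟨_, ⟨σ f, hV σ f hf, hc.nat σ⟩, by simp only [h0, h1]⟩

theorem comm_mem {r : F} (hr : r ∈ Verb L Set.univ) (g : F) : r * g * r⁻¹ * g⁻¹ ∈ VS L κ ⊥ := by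
  obtain ⟨c, hc⟩ := exists_ch (κ := κ) hr
  have h1 := hc.inv.nat (MulAut.conj g).toMonoidHom
  have h2 (a : ℕ → ℤ) : pull (MulAut.conj g).toMonoidHom a = a := by funext i; simp [pull]
  simp only [h2] at h1
  refine ⟨_, by simpa [mul_assoc] using hc.mul h1, fun a a' => ?_⟩
  simp

theorem quot_rW {V : Subgroup F} [V.Normal] (hV : FI V) {l : Law} (hl : l.v ∈ V) :
    QuotientGroup.mk' V (rW l x0 x1) = QuotientGroup.mk' V (x0 * x1 * x0⁻¹ * x1⁻¹) := by
  rw [map_rW, rW_of_V]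
  · simp
  · rw [← map_VW, QuotientGroup.mk'_apply, QuotientGroup.eq_one_iff]
    unfold VW
    exact hV _ _ hl

theorem dich (h0 : κ 0 = 0)
    (hn : ∀ n : ℕ, 0 < n → x0 ^ n * x1 * (x0 ^ n)⁻¹ * x1⁻¹ ∉ Verb L Set.univ)
    (hv : (L 0).v = (x0 * x1 * x0⁻¹ * x1⁻¹) * x0 * (x0 * x1 * x0⁻¹ * x1⁻¹)⁻¹ * x0⁻¹)
    (hu : ∀ u ∈ commutator F, u ∈ Verb L Set.univ ∨ ∃ j, (L j).v = u)
    {V : Subgroup F} (hV : FI V) (hN : VS L κ ⊥ ≤ V) :
    V ≤ Verb L Set.univ ∨ commutator F ≤ V := by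
  have := hV.normal
  refine or_iff_not_imp_left.2 fun h => ?_
  obtain ⟨f, hf, hf'⟩ := SetLike.not_le_iff_exists.1 h
  have h1 : ∃ u ∈ V, u ∈ commutator F ∧ u ∉ Verb L Set.univ := by
    by_cases h2 : ∀ a, dg a f = 0
    · exact ⟨f, hf, mem_commutator h2, hf'⟩
    push Not at h2
    obtain ⟨a, ha⟩ := h2
    have h3 : ∀ g : F, FreeGroup.lift (fun i => x0 ^ a i) g = x0 ^ dg a g := by
      intro g
      induction g using FreeGroup.induction_on with
      | C1 => simp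
      | of i => simp
      | inv_of i h => simp
      | mul x y hx hy => simp [hx, hy, zpow_add]
    have h4 : x0 ^ dg a f ∈ V := h3 f ▸ hV _ f hf
    have h5 : x0 ^ (dg a f).natAbs ∈ V := by
      rw [← zpow_natCast]
      rcases Int.natAbs_eq (dg a f) with h6 | h6
      · rwa [← h6]
      · rw [h6, zpow_neg] at h4
        simpa using h4
    refine ⟨_, ?_, mem_commutator fun b => ?_, hn _ (Int.natAbs_pos.2 ha)⟩
    · simpa [mul_assoc] using V.mul_mem h5 (this.conj_mem _ (V.inv_mem h5) x1)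
    · simp only [dg_mul, dg_inv]; ring
  obtain ⟨u, h2, h3, h4⟩ := h1
  obtain ⟨j, rfl⟩ := (hu u h3).resolve_left h4
  have h5 := quot_rW hV h2
  have h6 : (L 0).v ∈ V := by
    have h7 := (QuotientGroup.eq_one_iff _).2 (hN (comm_mem (Ch.gen (κ := κ) j x0 x1).mem x0))
    rw [← QuotientGroup.eq_one_iff, hv]
    rw [← QuotientGroup.mk'_apply] at h7 ⊢
    rw [map_mul, map_mul, map_mul, map_inv _ (x0 * x1 * x0⁻¹ * x1⁻¹), ← h5]
    simpa using h7
  have h7 : x0 * x1 * x0⁻¹ * x1⁻¹ ∈ V := by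
    rw [← QuotientGroup.eq_one_iff, ← QuotientGroup.mk'_apply, ← quot_rW hV h6,
      QuotientGroup.mk'_apply, QuotientGroup.eq_one_iff]
    exact hN ⟨_, Ch.gen 0 x0 x1, fun a a' => by simp [gen, h0]⟩
  rw [commutator_def, Subgroup.commutator_le]
  intro g _ h _
  simpa [commutatorElement_def] using hV (ev g h) _ h7

theorem lat (hT : TowerStmt) (hR : RecStmt) : LatStmt := by
  intro C _ _
  obtain ⟨L, hL, hv, hu⟩ := hR
  obtain ⟨κ', hκ'⟩ := exists_surjective_nat C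
  let κ : ℕ → C := fun j => Nat.casesOn j 0 κ'
  have hκ : Function.Surjective κ := fun s => by
    obtain ⟨j, hj⟩ := hκ' s
    exact ⟨j + 1, hj⟩
  obtain ⟨h1, h2⟩ := hT ℕ L hL _ _ alpha (kap κ) (kap_zpow κ)
  have hf : ∀ f c c', Ch L κ f c → Ch L κ f c' → c = c' := by
    intro f c c' h h'
    have h3 := h.mul h'.inv
    rw [mul_inv_cancel] at h3
    have h4 := h1 _ h3
    rw [inv_eq_one, ofAdd_eq_one] at h4
    exact add_neg_eq_zero.1 h4
  refine ⟨VS L κ ⊥, Verb L Set.univ, VS_FI _, Verb_FI _ _, VS_le _,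
    fun V hV hN => dich rfl h2 hv hu hV hN, ⟨Equiv.toOrderIso
      ⟨fun V => SV L κ V.1, fun S => ⟨VS L κ S, VS_FI S, VS_mono bot_le, VS_le S⟩,
        fun V => Subtype.ext (VS_SV V.2.1 V.2.2.1 V.2.2.2), fun S => SV_VS hf hκ S⟩
      (fun _ _ h => SV_mono h) fun _ _ h => VS_mono h⟩⟩

end Pool.Agent.MP_5c28a4_al.H91
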